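import Pool.Agent.W841.PK.Stm2

/-!
# Drift and second moment of one step
-/

set_option autoImplicit false
set_option linter.all false

namespace Pool.Agent.W597.PK

open W841.PK Finset
open scoped Classical symmDiff

noncomputable section

variable {n : ℕ} {S : Finset (Fin n)} {ρ : Rule n} {t : ℕ} {G G' : SimpleGraph (Fin n)}

/-! ### invariance under the history -/

theorem NN_eq (h : RR S ρ t G = RR S ρ t G') : NN S ρ t G = NN S ρ t G' := by
  unfold NN; rw [h]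

theorem rr_eq (h : RR S ρ t G = RR S ρ t G') : rr S ρ t G = rr S ρ t G' := by
  unfold rr; rw [NN_eq h]

theorem NP_iff (h : RR S ρ t G = RR S ρ t G') (hw : ww S ρ t G = ww S ρ t G') :
    NP S ρ t G ↔ NP S ρ t G' := by
  unfold NP; rw [h, hw]

theorem Act_iff (V0 : ℝ) (h : RR S ρ t G = RR S ρ t G') (hw : ww S ρ t G = ww S ρ t G') :
    Act S ρ t G V0 ↔ Act S ρ t G' V0 := by
  unfold Act; rw [NP_iff h hw, rr_eq h]

theorem mu_eq (hm : S_MeasP) (hρ : IsRule ρ) (h : SameHist S ρ t G G') (hNP : NP S ρ t G)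
    {a : Fin n} (ha : a ∈ RR S ρ t G) : mu S ρ t G a = mu S ρ t G' a := by
  obtain ⟨_, hR, hw, _, _, hXt, hXs, hXb, _⟩ := hm n S ρ t G G' hρ h
  unfold mu
  rw [hXs a ha, hXt _ hNP.2 hNP.1, hXb, rr_eq hR, ← hw]

theorem part1 (hm : S_MeasP) (hρ : IsRule ρ) (V0 : ℝ) (g : SimpleGraph (Fin n) → Fin n → ℝ)
    (hg : ∀ a, Meas S ρ t (fun G => g G a)) :
    Meas S ρ (t + 1) (fun G => if Act S ρ t G V0 then Yv S ρ t G (g G) else 0) := by
  intro G G' h
  have ht : SameHist S ρ t G G' := h.le (Nat.le_succ t)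
  have h1 := hm n S ρ (t + 1) G G' hρ h
  obtain ⟨_, hR, hw, _, _, hXt, hXs, hXb, _⟩ := hm n S ρ t G G' hρ ht
  have hA := Act_iff V0 hR hw
  show (if Act S ρ t G V0 then Yv S ρ t G (g G) else 0) =
    (if Act S ρ t G' V0 then Yv S ρ t G' (g G') else 0)
  by_cases hact : Act S ρ t G V0
  · rw [if_pos hact, if_pos (hA.1 hact)]
    unfold Yv
    rw [← hR, ← hw]
    refine sum_congr rfl fun a ha => ?_
    have ha' := mem_erase.1 ha
    have hga : g G a = g G' a := hg a G G' ht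
    have hee := h1.2.2.2.2.1 t (Nat.lt_succ_self t) a (by rw [RR_succ]; exact ha)
      (fun hh => hact.1.1 hh.2)
    rw [hga, hee, mu_eq hm hρ ht hact.1 ha'.2]
  · rw [if_neg hact, if_neg (fun h => hact (hA.2 h))]

/-! ### switchings -/

theorem sw_ww (hs : S_Swap) {w2 x y : Fin n} (h : SwOK S ρ t G w2 x y) (b : Fin n) :
    ee (swp G (ww S ρ t G) w2 x y) (ww S ρ t G) b =
      if b = x ∨ b = y then - ee G (ww S ρ t G) b else ee G (ww S ρ t G) b := by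
  have hee := (hs n S ρ t G w2 x y h).2.2.2.2 (ww S ρ t G) b
  rw [hee]
  obtain ⟨_, _, h3, _, _, h6, h7, h8, h9, _⟩ := h
  have h6' := h6.symm
  have h8' := h8.symm
  have h3' := h3.symm
  refine if_congr ?_ rfl rfl
  simp only [Set.mem_insert_iff, Set.mem_singleton_iff, Sym2.eq_iff]
  tauto

theorem sw_w2 (hs : S_Swap) {w2 x y : Fin n} (h : SwOK S ρ t G w2 x y) (b : Fin n) :
    ee (swp G (ww S ρ t G) w2 x y) w2 b =
      if b = x ∨ b = y then - ee G w2 b else ee G w2 b := by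
  have hee := (hs n S ρ t G w2 x y h).2.2.2.2 w2 b
  rw [hee]
  obtain ⟨_, _, h3, _, _, h6, h7, h8, h9, _⟩ := h
  have h7' := h7.symm
  have h9' := h9.symm
  have h3' := h3.symm
  refine if_congr ?_ rfl rfl
  simp only [Set.mem_insert_iff, Set.mem_singleton_iff, Sym2.eq_iff]
  tauto

theorem sw_prod (hs : S_Swap) {w2 x y : Fin n} (h : SwOK S ρ t G w2 x y) (b : Fin n) :
    ee (swp G (ww S ρ t G) w2 x y) (ww S ρ t G) b * ee (swp G (ww S ρ t G) w2 x y) w2 b =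
      ee G (ww S ρ t G) b * ee G w2 b := by
  rw [sw_ww hs h, sw_w2 hs h]
  split_ifs <;> ring

theorem sw_RR (hm : S_MeasP) (hs : S_Swap) (hρ : IsRule ρ) {w2 x y : Fin n}
    (h : SwOK S ρ t G w2 x y) : RR S ρ t (swp G (ww S ρ t G) w2 x y) = RR S ρ t G :=
  (hm n S ρ t G _ hρ (hs n S ρ t G w2 x y h).1).2.1.symm

theorem sw_qq (hm : S_MeasP) (hs : S_Swap) (hρ : IsRule ρ) {w2 x y : Fin n}
    (h : SwOK S ρ t G w2 x y) : qq S ρ t (swp G (ww S ρ t G) w2 x y) w2 = qq S ρ t G w2 := by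
  unfold qq
  rw [sw_RR hm hs hρ h, (hs n S ρ t G w2 x y h).2.1]
  exact sum_congr rfl fun b _ => sw_prod hs h b

theorem AB_mem {w2 a : Fin n} : a ∈ Aw S ρ t G w2 ∪ Bw S ρ t G w2 ↔
    a ∈ RR S ρ t G ∧ a ≠ ww S ρ t G ∧ a ≠ w2 ∧ ee G (ww S ρ t G) a * ee G w2 a = -1 := by
  simp only [mem_union, Aw, Bw, mem_filter]
  constructor
  · rintro (⟨h1, h2, h3, h4, h5⟩ | ⟨h1, h2, h3, h4, h5⟩)
    · refine ⟨h1, h2, h3, ?_⟩
      have e1 : ee G (ww S ρ t G) a = 1 := by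
        unfold ee; rw [if_neg h2.symm, if_pos h4.symm]
      have e2 : ee G w2 a = -1 := by
        unfold ee; rw [if_neg h3.symm, if_neg (fun h => h5 h.symm)]
      rw [e1, e2]; norm_num
    · refine ⟨h1, h2, h3, ?_⟩
      have e1 : ee G (ww S ρ t G) a = -1 := by
        unfold ee; rw [if_neg h2.symm, if_neg (fun h => h5 h.symm)]
      have e2 : ee G w2 a = 1 := by
        unfold ee; rw [if_neg h3.symm, if_pos h4.symm]
      rw [e1, e2]; norm_num
  · rintro ⟨h1, h2, h3, h4⟩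
    unfold ee at h4
    rw [if_neg h2.symm, if_neg h3.symm] at h4
    by_cases h5 : G.Adj (ww S ρ t G) a
    · by_cases h6 : G.Adj w2 a
      · rw [if_pos h5, if_pos h6] at h4; norm_num at h4
      · exact Or.inl ⟨h1, h2, h3, h5.symm, fun h => h6 h.symm⟩
    · by_cases h6 : G.Adj w2 a
      · exact Or.inr ⟨h1, h2, h3, h6.symm, fun h => h5 h.symm⟩
      · rw [if_neg h5, if_neg h6] at h4; norm_num at h4

theorem Dl_eq (w2 : Fin n) : Dl S ρ t G w2 = ((Aw S ρ t G w2 ∪ Bw S ρ t G w2).card : ℝ) := by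
  unfold Dl
  rw [card_union_of_disjoint]
  · push_cast; rfl
  · rw [disjoint_left]
    intro a ha hb
    simp only [Aw, Bw, mem_filter] at ha hb
    exact hb.2.2.2.2 ha.2.2.2.1

theorem sw_AB (hm : S_MeasP) (hs : S_Swap) (hρ : IsRule ρ) {w2 x y : Fin n}
    (h : SwOK S ρ t G w2 x y) :
    Aw S ρ t (swp G (ww S ρ t G) w2 x y) w2 ∪ Bw S ρ t (swp G (ww S ρ t G) w2 x y) w2 =
      Aw S ρ t G w2 ∪ Bw S ρ t G w2 := by
  ext a
  rw [AB_mem, AB_mem, sw_RR hm hs hρ h, (hs n S ρ t G w2 x y h).2.1, sw_prod hs h]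

theorem sw_Dl (hm : S_MeasP) (hs : S_Swap) (hρ : IsRule ρ) {w2 x y : Fin n}
    (h : SwOK S ρ t G w2 x y) : Dl S ρ t (swp G (ww S ρ t G) w2 x y) w2 = Dl S ρ t G w2 := by
  rw [Dl_eq, Dl_eq, sw_AB hm hs hρ h]

theorem NN_mem {w2 : Fin n} (h : w2 ∈ NN S ρ t G) : w2 ∈ RR S ρ t G ∧ w2 ∉ S := by
  unfold NN at h
  exact mem_sdiff.1 h

theorem sw_qh (hm : S_MeasP) (hs : S_Swap) (hρ : IsRule ρ) {w2 x y : Fin n}
    (h : SwOK S ρ t G w2 x y) : qh S ρ t (swp G (ww S ρ t G) w2 x y) w2 = qh S ρ t G w2 := by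
  obtain ⟨_, hR, hw, _, _, hXt, hXs, hXb, _⟩ := hm n S ρ t G _ hρ (hs n S ρ t G w2 x y h).1
  unfold qh
  rw [sw_Dl hm hs hρ h, ← hw, ← hXt _ h.1.2 h.1.1, ← hXt w2 (NN_mem h.2.1).1 (NN_mem h.2.1).2]

theorem sw_x {w2 x y : Fin n} (h : SwOK S ρ t G w2 x y) :
    x ∈ Aw S ρ t G w2 ∪ Bw S ρ t G w2 := by
  obtain ⟨_, _, h3, h4, h5, h6, h7, h8, h9, h10, h11, h12, h13⟩ := h
  rw [mem_union]
  left
  simp only [Aw, mem_filter]
  exact ⟨h4, h6, h7, h10, h11⟩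

theorem sw_y {w2 x y : Fin n} (h : SwOK S ρ t G w2 x y) :
    y ∈ Aw S ρ t G w2 ∪ Bw S ρ t G w2 := by
  obtain ⟨_, _, h3, h4, h5, h6, h7, h8, h9, h10, h11, h12, h13⟩ := h
  rw [mem_union]
  right
  simp only [Bw, mem_filter]
  exact ⟨h5, h8, h9, h12, h13⟩

/-- the part of `Yv` which does not change under switchings at `w2` -/
def Cv (S : Finset (Fin n)) (ρ : Rule n) (t : ℕ) (G : SimpleGraph (Fin n)) (g : Fin n → ℝ)
    (w2 : Fin n) : ℝ :=
  ∑ a ∈ ((RR S ρ t G).erase (ww S ρ t G)) \ (Aw S ρ t G w2 ∪ Bw S ρ t G w2),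
    g a * (ee G a (ww S ρ t G) - mu S ρ t G a) +
  ∑ a ∈ Aw S ρ t G w2 ∪ Bw S ρ t G w2, g a * (qh S ρ t G w2 - mu S ρ t G a)

theorem AB_sub (w2 : Fin n) :
    Aw S ρ t G w2 ∪ Bw S ρ t G w2 ⊆ (RR S ρ t G).erase (ww S ρ t G) := by
  intro a ha
  rw [AB_mem] at ha
  exact mem_erase.2 ⟨ha.2.1, ha.1⟩

theorem Yv_split (g : Fin n → ℝ) (w2 : Fin n) :
    Yv S ρ t G g = Cv S ρ t G g w2 + Dd S ρ t G g w2 := by
  unfold Yv Cv Dd
  rw [← sum_sdiff (AB_sub (S := S) (ρ := ρ) (t := t) (G := G) w2), add_assoc,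
    ← sum_add_distrib]
  congr 1
  exact sum_congr rfl fun a _ => by ring

theorem sw_Cv (hm : S_MeasP) (hs : S_Swap) (hρ : IsRule ρ)
    {g : SimpleGraph (Fin n) → Fin n → ℝ} (hg : ∀ a, Meas S ρ t (fun G => g G a))
    {w2 x y : Fin n} (h : SwOK S ρ t G w2 x y) :
    Cv S ρ t (swp G (ww S ρ t G) w2 x y) (g (swp G (ww S ρ t G) w2 x y)) w2 =
      Cv S ρ t G (g G) w2 := by
  have hsame := (hs n S ρ t G w2 x y h).1
  unfold Cv
  rw [sw_AB hm hs hρ h, sw_RR hm hs hρ h, sw_qh hm hs hρ h, (hs n S ρ t G w2 x y h).2.1]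
  congr 1
  · refine sum_congr rfl fun a ha => ?_
    obtain ⟨ha1, ha2⟩ := mem_sdiff.1 ha
    have ha3 := (mem_erase.1 ha1).2
    have hga : g G a = g (swp G (ww S ρ t G) w2 x y) a := hg a G _ hsame
    rw [← hga, ← mu_eq hm hρ hsame h.1 ha3, ee_comm, sw_ww hs h, if_neg, ee_comm]
    rintro (rfl | rfl)
    · exact ha2 (sw_x h)
    · exact ha2 (sw_y h)
  · refine sum_congr rfl fun a ha => ?_
    have ha3 := (mem_erase.1 (AB_sub w2 ha)).2
    have hga : g G a = g (swp G (ww S ρ t G) w2 x y) a := hg a G _ hsame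
    rw [← hga, ← mu_eq hm hρ hsame h.1 ha3]

/-- invariance of the coefficients -/
theorem K_inv (hm : S_MeasP) (hs : S_Swap) (hρ : IsRule ρ) (V0 : ℝ)
    (c : SimpleGraph (Fin n) → Fin n → ℝ)
    (hc : ∀ G w2 x y, SwOK S ρ t G w2 x y → c (swp G (ww S ρ t G) w2 x y) w2 = c G w2)
    (G : SimpleGraph (Fin n)) (w2 x y : Fin n) (h : SwOK S ρ t G w2 x y) :
    (fun (G : SimpleGraph (Fin n)) (w2 : Fin n) => if Act S ρ t G V0 ∧
      |qq S ρ t G w2| ≤ ((RR S ρ t G).card : ℝ) / 4 then c G w2 else 0)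
        (swp G (ww S ρ t G) w2 x y) w2 =
    (fun (G : SimpleGraph (Fin n)) (w2 : Fin n) => if Act S ρ t G V0 ∧
      |qq S ρ t G w2| ≤ ((RR S ρ t G).card : ℝ) / 4 then c G w2 else 0) G w2 := by
  show (if Act S ρ t (swp G (ww S ρ t G) w2 x y) V0 ∧
      |qq S ρ t (swp G (ww S ρ t G) w2 x y) w2| ≤
        ((RR S ρ t (swp G (ww S ρ t G) w2 x y)).card : ℝ) / 4
      then c (swp G (ww S ρ t G) w2 x y) w2 else 0) = _
  rw [sw_qq hm hs hρ h, sw_RR hm hs hρ h, hc G w2 x y h]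
  refine if_congr ?_ rfl rfl
  rw [Act_iff V0 (sw_RR hm hs hρ h) (hs n S ρ t G w2 x y h).2.1]

theorem conv (V0 : ℝ) (c F : Fin n → ℝ) :
    (if NP S ρ t G then ∑ w2 ∈ (NN S ρ t G).erase (ww S ρ t G),
      (if Act S ρ t G V0 ∧ |qq S ρ t G w2| ≤ ((RR S ρ t G).card : ℝ) / 4 then c w2 else 0) *
        F w2 else 0) =
    if Act S ρ t G V0 then ∑ w2 ∈ good2 S ρ t G, c w2 * F w2 else 0 := by
  by_cases hact : Act S ρ t G V0
  · rw [if_pos hact.1, if_pos hact]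
    unfold good2
    rw [sum_filter]
    refine sum_congr rfl fun w2 _ => ?_
    by_cases hq : |qq S ρ t G w2| ≤ ((RR S ρ t G).card : ℝ) / 4
    · rw [if_pos ⟨hact, hq⟩, if_pos hq]
    · rw [if_neg (fun h => hq h.2), if_neg hq, zero_mul]
  · rw [if_neg hact]
    split_ifs
    · refine sum_eq_zero fun w2 _ => ?_
      rw [if_neg (fun h => hact h.1), zero_mul]
    · rfl

/-! ### trivial bounds -/

theorem sum_ee_abs (T : Finset (Fin n)) (a : Fin n) : |∑ b ∈ T, ee G a b| ≤ n := by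
  refine (abs_sum_le_sum_abs _ _).trans ?_
  refine (sum_le_sum fun b _ => abs_ee_le G a b).trans ?_
  rw [sum_const, nsmul_eq_mul, mul_one]
  have := card_le_univ T
  rw [Fintype.card_fin] at this
  exact_mod_cast this

theorem Xs_abs (a : Fin n) : |Xs S ρ t G a| ≤ 2 * n := by
  unfold Xs Xn
  have h1 := sum_ee_abs (G := G) (NN S ρ t G) a
  have h2 := sum_ee_abs (G := G) S a
  have h3 : (0 : ℝ) ≤ n := Nat.cast_nonneg n
  split_ifs
  · linarith
  · have := abs_add_le (∑ b ∈ NN S ρ t G, ee G a b) (∑ b ∈ S, ee G a b)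
    linarith

theorem Xb_abs : |Xb S ρ t G| ≤ n := by
  unfold Xb
  rw [abs_div, abs_of_nonneg (Nat.cast_nonneg (rr S ρ t G) : (0 : ℝ) ≤ (rr S ρ t G : ℝ))]
  have h1 : |∑ a ∈ NN S ρ t G, Xt S ρ t G a| ≤ n * (rr S ρ t G : ℝ) := by
    refine (abs_sum_le_sum_abs _ _).trans ?_
    refine (sum_le_sum fun b _ => sum_ee_abs (G := G) (RR S ρ t G) b).trans ?_
    rw [sum_const, nsmul_eq_mul, mul_comm]
    rfl
  exact div_le_of_le_mul₀ (Nat.cast_nonneg _) (Nat.cast_nonneg _) h1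

theorem rr_le : (rr S ρ t G : ℝ) ≤ n := by
  have := card_le_univ (NN S ρ t G)
  rw [Fintype.card_fin] at this
  unfold rr
  exact_mod_cast this

theorem mu_abs {V0 : ℝ} (hV : 1 ≤ V0) (hn : 1 ≤ n) (hact : Act S ρ t G V0) (a : Fin n) :
    |mu S ρ t G a| ≤ 4 * V0 := by
  have hn' : (1 : ℝ) ≤ n := by exact_mod_cast hn
  have hr := hact.2
  have hV0 : 0 < V0 := by linarith
  have hr0 : (0 : ℝ) < rr S ρ t G := lt_of_lt_of_le (by positivity) hr
  unfold mu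
  rw [abs_div, abs_of_pos hr0, div_le_iff₀ hr0]
  have h1 := Xs_abs (S := S) (ρ := ρ) (t := t) (G := G) a
  have h2 : |Xt S ρ t G (ww S ρ t G)| ≤ n := sum_ee_abs (RR S ρ t G) _
  have h3 := Xb_abs (S := S) (ρ := ρ) (t := t) (G := G)
  rw [div_le_iff₀ hV0] at hr
  have h4 : |Xs S ρ t G a + Xt S ρ t G (ww S ρ t G) - Xb S ρ t G| ≤ 4 * n := by
    rw [abs_le] at *
    constructor <;> linarith [h1.1, h1.2, h2.1, h2.2, h3.1, h3.2]
  linarith

theorem supp_sum (hS : S.card = Nat.sqrt n) (b : Bool) {γ : ℝ} (hγ : 0 ≤ γ) {g : Fin n → ℝ}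
    (hg : ∀ a, |g a| ≤ γ) (hsupp : ∀ a, (if b then a ∉ S else a ∈ S) → g a = 0)
    (T : Finset (Fin n)) : ∑ a ∈ T, |g a| ≤ γ * uu b n := by
  cases b with
  | true =>
    simp only [if_true] at hsupp
    have h1 : ∑ a ∈ T, |g a| ≤ ∑ a ∈ S, γ := by
      calc ∑ a ∈ T, |g a| ≤ ∑ a ∈ T ∪ S, |g a| :=
            sum_le_sum_of_subset_of_nonneg subset_union_left fun _ _ _ => abs_nonneg _
        _ = ∑ a ∈ S, |g a| := by
            symm
            refine sum_subset subset_union_right fun a _ ha => ?_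
            rw [hsupp a ha, abs_zero]
        _ ≤ _ := sum_le_sum fun a _ => hg a
    rw [sum_const, nsmul_eq_mul, hS] at h1
    have h2 : ((Nat.sqrt n : ℕ) : ℝ) ≤ √(n : ℝ) := Real.nat_sqrt_le_real_sqrt
    have h3 : uu true n = √(n : ℝ) := by simp [uu]
    rw [h3]
    nlinarith
  | false =>
    have h1 : ∑ a ∈ T, |g a| ≤ ∑ a ∈ T, γ := sum_le_sum fun a _ => hg a
    rw [sum_const, nsmul_eq_mul] at h1
    have h2 := card_le_univ T
    rw [Fintype.card_fin] at h2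
    have h2' : (T.card : ℝ) ≤ n := by exact_mod_cast h2
    have h3 : uu false n = (n : ℝ) := by simp [uu]
    rw [h3]
    nlinarith

theorem uu_nonneg (b : Bool) : 0 ≤ uu b n := by
  unfold uu; split_ifs <;> positivity

theorem uu_le (b : Bool) (hn : 1 ≤ n) : uu b n ≤ n := by
  have hn' : (1 : ℝ) ≤ n := by exact_mod_cast hn
  unfold uu
  split_ifs
  · rw [Real.sqrt_le_left (by linarith)]
    nlinarith
  · exact le_rfl

theorem Yv_abs {V0 : ℝ} (hV : 1 ≤ V0) (hn : 1 ≤ n) (hact : Act S ρ t G V0)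
    (hS : S.card = Nat.sqrt n) (b : Bool) {γ : ℝ} (hγ : 0 ≤ γ) {g : Fin n → ℝ}
    (hg : ∀ a, |g a| ≤ γ) (hsupp : ∀ a, (if b then a ∉ S else a ∈ S) → g a = 0) :
    |Yv S ρ t G g| ≤ (1 + 4 * V0) * (γ * uu b n) := by
  unfold Yv
  refine (abs_sum_le_sum_abs _ _).trans ?_
  calc ∑ a ∈ (RR S ρ t G).erase (ww S ρ t G), |g a * (ee G a (ww S ρ t G) - mu S ρ t G a)|
      ≤ ∑ a ∈ (RR S ρ t G).erase (ww S ρ t G), (1 + 4 * V0) * |g a| := by
        refine sum_le_sum fun a _ => ?_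
        rw [abs_mul, mul_comm]
        refine mul_le_mul_of_nonneg_right ?_ (abs_nonneg _)
        have h1 := abs_ee_le G a (ww S ρ t G)
        have h2 := mu_abs hV hn hact a
        have h3 := abs_sub (ee G a (ww S ρ t G)) (mu S ρ t G a)
        linarith
    _ = (1 + 4 * V0) * ∑ a ∈ (RR S ρ t G).erase (ww S ρ t G), |g a| := by rw [mul_sum]
    _ ≤ _ := mul_le_mul_of_nonneg_left (supp_sum hS b hγ hg hsupp _) (by linarith)

theorem qh_abs {w2 : Fin n} (hNP : NP S ρ t G) (hw2 : w2 ∈ (NN S ρ t G).erase (ww S ρ t G)) :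
    |qh S ρ t G w2| ≤ 1 := by
  obtain ⟨hne, hN⟩ := mem_erase.1 hw2
  have hR := (NN_mem hN).1
  have key : |Xt S ρ t G (ww S ρ t G) - Xt S ρ t G w2| ≤ 2 * Dl S ρ t G w2 := by
    unfold Xt
    rw [← sum_sub_distrib, ← add_sum_erase _ _ hNP.2,
      ← add_sum_erase _ _ (mem_erase.2 ⟨hne, hR⟩), ee_self, ee_self,
      ee_comm G w2 (ww S ρ t G)]
    have e1 : (0 - ee G (ww S ρ t G) w2 + (ee G (ww S ρ t G) w2 - 0 +
        ∑ x ∈ ((RR S ρ t G).erase (ww S ρ t G)).erase w2,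
          (ee G (ww S ρ t G) x - ee G w2 x))) =
        ∑ x ∈ ((RR S ρ t G).erase (ww S ρ t G)).erase w2,
          (ee G (ww S ρ t G) x - ee G w2 x) := by ring
    rw [e1, Dl_eq]
    refine (abs_sum_le_sum_abs _ _).trans ?_
    have h1 : ∀ x ∈ ((RR S ρ t G).erase (ww S ρ t G)).erase w2,
        |ee G (ww S ρ t G) x - ee G w2 x| ≤
          if x ∈ Aw S ρ t G w2 ∪ Bw S ρ t G w2 then 2 else 0 := by
      intro x hx
      obtain ⟨hx1, hx2⟩ := mem_erase.1 hx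
      obtain ⟨hx3, hx4⟩ := mem_erase.1 hx2
      have s1 := ee_sq G hx3.symm
      have s2 := ee_sq G hx1.symm
      by_cases hAB : x ∈ Aw S ρ t G w2 ∪ Bw S ρ t G w2
      · rw [if_pos hAB]
        have := abs_sub (ee G (ww S ρ t G) x) (ee G w2 x)
        have := abs_ee_le G (ww S ρ t G) x
        have := abs_ee_le G w2 x
        linarith
      · rw [if_neg hAB]
        rw [AB_mem] at hAB
        have hne : ee G (ww S ρ t G) x * ee G w2 x ≠ -1 := fun h => hAB ⟨hx4, hx3, hx1, h⟩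
        have hprod : (ee G (ww S ρ t G) x * ee G w2 x) ^ 2 = 1 := by rw [mul_pow, s1, s2, one_mul]
        have h1 : ee G (ww S ρ t G) x * ee G w2 x = 1 := by
          have h2 : (ee G (ww S ρ t G) x * ee G w2 x - 1) *
              (ee G (ww S ρ t G) x * ee G w2 x + 1) = 0 := by linear_combination hprod
          rcases mul_eq_zero.1 h2 with h3 | h3
          · linarith
          · exact absurd (by linarith) hne
        have h2 : ee G (ww S ρ t G) x - ee G w2 x = 0 := by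
          linear_combination (ee G w2 x) * h1 - (ee G (ww S ρ t G) x) * s2
        rw [h2, abs_zero]
    refine (sum_le_sum h1).trans ?_
    rw [← sum_filter, sum_const, nsmul_eq_mul, mul_comm]
    refine mul_le_mul_of_nonneg_left ?_ (by norm_num)
    have : (((RR S ρ t G).erase (ww S ρ t G)).erase w2).filter
        (fun x => x ∈ Aw S ρ t G w2 ∪ Bw S ρ t G w2) ⊆ Aw S ρ t G w2 ∪ Bw S ρ t G w2 :=
      fun x hx => (mem_filter.1 hx).2
    exact_mod_cast card_le_card this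
  unfold qh
  rw [abs_div]
  have hD : 0 ≤ Dl S ρ t G w2 := by rw [Dl_eq]; positivity
  rw [abs_of_nonneg (by linarith : 0 ≤ 2 * Dl S ρ t G w2)]
  exact div_le_one_of_le₀ key (by linarith)

theorem good2_card : ((good2 S ρ t G).card : ℝ) ≤ rr S ρ t G := by
  unfold good2 rr
  exact_mod_cast (card_le_card ((filter_subset _ _).trans (erase_subset _ _)))

theorem Dd_abs {w2 : Fin n} (hNP : NP S ρ t G) (hw2 : w2 ∈ good2 S ρ t G) {γ : ℝ} (hγ : 0 ≤ γ)
    {g : Fin n → ℝ} (hg : ∀ a, |g a| ≤ γ) : |Dd S ρ t G g w2| ≤ 2 * γ * n := by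
  have hw2' : w2 ∈ (NN S ρ t G).erase (ww S ρ t G) := by
    unfold good2 at hw2; exact (mem_filter.1 hw2).1
  unfold Dd
  refine (abs_sum_le_sum_abs _ _).trans ?_
  have h1 : ∀ a ∈ Aw S ρ t G w2 ∪ Bw S ρ t G w2,
      |g a * (ee G a (ww S ρ t G) - qh S ρ t G w2)| ≤ γ * 2 := by
    intro a _
    rw [abs_mul]
    have h2 := abs_ee_le G a (ww S ρ t G)
    have h3 := qh_abs hNP hw2'
    have h4 := abs_sub (ee G a (ww S ρ t G)) (qh S ρ t G w2)
    exact mul_le_mul (hg a) (by linarith) (abs_nonneg _) hγ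
  refine (sum_le_sum h1).trans ?_
  rw [sum_const, nsmul_eq_mul]
  have h2 := card_le_univ (Aw S ρ t G w2 ∪ Bw S ρ t G w2)
  rw [Fintype.card_fin] at h2
  have h2' : ((Aw S ρ t G w2 ∪ Bw S ρ t G w2).card : ℝ) ≤ n := by exact_mod_cast h2
  nlinarith

theorem diff_abs {V0 : ℝ} (hV : 1 ≤ V0) (hn : 1 ≤ n) (hact : Act S ρ t G V0)
    (hS : S.card = Nat.sqrt n) (b : Bool) {γ : ℝ} (hγ : 0 ≤ γ) {g : Fin n → ℝ}
    (hg : ∀ a, |g a| ≤ γ) (hsupp : ∀ a, (if b then a ∉ S else a ∈ S) → g a = 0) :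
    |2 / (rr S ρ t G : ℝ) * ∑ w2 ∈ good2 S ρ t G, Dd S ρ t G g w2 - Yv S ρ t G g| ≤
      (5 + 4 * V0) * γ * n := by
  have hn' : (1 : ℝ) ≤ n := by exact_mod_cast hn
  have hV0 : 0 < V0 := by linarith
  have hr0 : (0 : ℝ) < rr S ρ t G := lt_of_lt_of_le (by positivity) hact.2
  have h1 := Yv_abs hV hn hact hS b hγ hg hsupp
  have h2 : |∑ w2 ∈ good2 S ρ t G, Dd S ρ t G g w2| ≤ rr S ρ t G * (2 * γ * n) := by
    refine (abs_sum_le_sum_abs _ _).trans ?_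
    refine (sum_le_sum fun w2 hw2 => Dd_abs hact.1 hw2 hγ hg).trans ?_
    rw [sum_const, nsmul_eq_mul]
    exact mul_le_mul_of_nonneg_right good2_card (by positivity)
  have h3 : |2 / (rr S ρ t G : ℝ) * ∑ w2 ∈ good2 S ρ t G, Dd S ρ t G g w2| ≤ 4 * γ * n := by
    rw [abs_mul, abs_of_pos (by positivity : (0 : ℝ) < 2 / (rr S ρ t G : ℝ))]
    calc 2 / (rr S ρ t G : ℝ) * |∑ w2 ∈ good2 S ρ t G, Dd S ρ t G g w2|
        ≤ 2 / (rr S ρ t G : ℝ) * (rr S ρ t G * (2 * γ * n)) :=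
          mul_le_mul_of_nonneg_left h2 (by positivity)
      _ = 4 * γ * n := by field_simp; ring
  have h4 := abs_sub (2 / (rr S ρ t G : ℝ) * ∑ w2 ∈ good2 S ρ t G, Dd S ρ t G g w2)
    (Yv S ρ t G g)
  have h5 : (1 + 4 * V0) * (γ * uu b n) ≤ (1 + 4 * V0) * (γ * n) :=
    mul_le_mul_of_nonneg_left (mul_le_mul_of_nonneg_left (uu_le b hn) hγ) (by linarith)
  have h6 : (5 + 4 * V0) * γ * n = 4 * γ * n + (1 + 4 * V0) * (γ * n) := by ring
  linarith

/-- sum of squares over the pairs -/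
theorem pair_sum (w2 : Fin n) (hS : S.card = Nat.sqrt n) (b : Bool) {γ : ℝ} (hγ : 0 ≤ γ)
    {g : Fin n → ℝ} (hg : ∀ a, |g a| ≤ γ)
    (hsupp : ∀ a, (if b then a ∉ S else a ∈ S) → g a = 0) :
    ∑ x ∈ Aw S ρ t G w2, ∑ y ∈ Bw S ρ t G w2, (g x - g y) ^ 2 ≤
      2 * Dl S ρ t G w2 * (γ ^ 2 * uu b n) := by
  have hdisj : Disjoint (Aw S ρ t G w2) (Bw S ρ t G w2) := by
    rw [disjoint_left]
    intro a ha hb
    simp only [Aw, Bw, mem_filter] at ha hb
    exact hb.2.2.2.2 ha.2.2.2.1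
  have hsq : ∀ T : Finset (Fin n), ∑ a ∈ T, g a ^ 2 ≤ γ ^ 2 * uu b n := by
    intro T
    have h1 : ∑ a ∈ T, g a ^ 2 ≤ ∑ a ∈ T, γ * |g a| := by
      refine sum_le_sum fun a _ => ?_
      rw [← sq_abs, sq]
      exact mul_le_mul_of_nonneg_right (hg a) (abs_nonneg _)
    rw [← mul_sum] at h1
    have h2 := supp_sum hS b hγ hg hsupp T
    calc _ ≤ γ * ∑ a ∈ T, |g a| := h1
      _ ≤ γ * (γ * uu b n) := mul_le_mul_of_nonneg_left h2 hγ
      _ = _ := by ring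
  set A := Aw S ρ t G w2 with hA
  set B := Bw S ρ t G w2 with hB
  have h1 : ∑ x ∈ A, ∑ y ∈ B, (g x - g y) ^ 2 ≤
      ∑ x ∈ A, ∑ y ∈ B, (2 * g x ^ 2 + 2 * g y ^ 2) := by
    refine sum_le_sum fun x _ => sum_le_sum fun y _ => ?_
    nlinarith [sq_nonneg (g x + g y)]
  have h2 : ∑ x ∈ A, ∑ y ∈ B, (2 * g x ^ 2 + 2 * g y ^ 2) =
      2 * B.card * ∑ x ∈ A, g x ^ 2 + 2 * A.card * ∑ y ∈ B, g y ^ 2 := by
    simp only [sum_add_distrib, sum_const, nsmul_eq_mul, ← mul_sum]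
    ring
  have h3 : ∑ x ∈ A, g x ^ 2 + ∑ y ∈ B, g y ^ 2 ≤ γ ^ 2 * uu b n := by
    rw [← sum_union hdisj]
    exact hsq _
  have hA0 : 0 ≤ ∑ x ∈ A, g x ^ 2 := sum_nonneg fun _ _ => sq_nonneg _
  have hB0 : 0 ≤ ∑ x ∈ B, g x ^ 2 := sum_nonneg fun _ _ => sq_nonneg _
  have hD : Dl S ρ t G w2 = (A.card : ℝ) + B.card := rfl
  have hAc : (0 : ℝ) ≤ A.card := Nat.cast_nonneg _
  have hBc : (0 : ℝ) ≤ B.card := Nat.cast_nonneg _
  rw [hD]
  calc _ ≤ _ := h1
    _ = _ := h2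
    _ ≤ 2 * ((A.card : ℝ) + B.card) * (∑ x ∈ A, g x ^ 2 + ∑ y ∈ B, g y ^ 2) := by nlinarith
    _ ≤ _ := mul_le_mul_of_nonneg_left h3 (by positivity)

/-! ### the drift -/

theorem drift_zero (hm : S_MeasP) (hs : S_Swap) (h1 : S_SW1) (hρ : IsRule ρ) (V0 : ℝ)
    (g : SimpleGraph (Fin n) → Fin n → ℝ) (hg : ∀ a, Meas S ρ t (fun G => g G a))
    (c : SimpleGraph (Fin n) → Fin n → ℝ)
    (hc : ∀ G w2 x y, SwOK S ρ t G w2 x y → c (swp G (ww S ρ t G) w2 x y) w2 = c G w2) :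
    Ex (fun G => if Act S ρ t G V0 then
      ∑ w2 ∈ good2 S ρ t G, c G w2 * Dd S ρ t G (g G) w2 else 0) = 0 := by
  have h := h1 n S ρ t (fun (G : SimpleGraph (Fin n)) (w2 : Fin n) => if Act S ρ t G V0 ∧
      |qq S ρ t G w2| ≤ ((RR S ρ t G).card : ℝ) / 4 then c G w2 else 0) g
      (K_inv hm hs hρ V0 c hc) hg
  unfold Ex
  have h2 : ∑ G, (if Act S ρ t G V0 then
      ∑ w2 ∈ good2 S ρ t G, c G w2 * Dd S ρ t G (g G) w2 else 0) = 0 := by
    refine Eq.trans (sum_congr rfl fun G _ => ?_) h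
    exact (conv V0 (c G) (fun w2 => Dd S ρ t G (g G) w2)).symm
  rw [h2, zero_div]

theorem second_id (hm : S_MeasP) (hs : S_Swap) (h2 : S_SW2) (hρ : IsRule ρ) (V0 : ℝ)
    (g : SimpleGraph (Fin n) → Fin n → ℝ) (hg : ∀ a, Meas S ρ t (fun G => g G a))
    (c : SimpleGraph (Fin n) → Fin n → ℝ)
    (hc : ∀ G w2 x y, SwOK S ρ t G w2 x y → c (swp G (ww S ρ t G) w2 x y) w2 = c G w2) :
    Ex (fun G => if Act S ρ t G V0 then
      ∑ w2 ∈ good2 S ρ t G, c G w2 * (Dl S ρ t G w2 * Dd S ρ t G (g G) w2 ^ 2) else 0) =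
    2 * Ex (fun G => if Act S ρ t G V0 then
      ∑ w2 ∈ good2 S ρ t G, c G w2 * (∑ x ∈ Aw S ρ t G w2, ∑ y ∈ Bw S ρ t G w2,
        (g G x - g G y) ^ 2) else 0) := by
  have h := h2 n S ρ t (fun (G : SimpleGraph (Fin n)) (w2 : Fin n) => if Act S ρ t G V0 ∧
      |qq S ρ t G w2| ≤ ((RR S ρ t G).card : ℝ) / 4 then c G w2 else 0) g
      (K_inv hm hs hρ V0 c hc) hg
  unfold Ex
  have e1 : ∑ G, (if Act S ρ t G V0 then
      ∑ w2 ∈ good2 S ρ t G, c G w2 * (Dl S ρ t G w2 * Dd S ρ t G (g G) w2 ^ 2) else 0) =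
      2 * ∑ G, (if Act S ρ t G V0 then
      ∑ w2 ∈ good2 S ρ t G, c G w2 * (∑ x ∈ Aw S ρ t G w2, ∑ y ∈ Bw S ρ t G w2,
        (g G x - g G y) ^ 2) else 0) := by
    have e2 : ∀ G : SimpleGraph (Fin n), (if Act S ρ t G V0 then
      ∑ w2 ∈ good2 S ρ t G, c G w2 * (Dl S ρ t G w2 * Dd S ρ t G (g G) w2 ^ 2) else 0) =
      (if NP S ρ t G then ∑ w2 ∈ (NN S ρ t G).erase (ww S ρ t G),
      (if Act S ρ t G V0 ∧ |qq S ρ t G w2| ≤ ((RR S ρ t G).card : ℝ) / 4 then c G w2 else 0) *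
        Dl S ρ t G w2 * Dd S ρ t G (g G) w2 ^ 2 else 0) := by
      intro G
      rw [← conv V0 (c G) (fun w2 => Dl S ρ t G w2 * Dd S ρ t G (g G) w2 ^ 2)]
      simp only [mul_assoc]
    have e3 : ∀ G : SimpleGraph (Fin n), (if Act S ρ t G V0 then
      ∑ w2 ∈ good2 S ρ t G, c G w2 * (∑ x ∈ Aw S ρ t G w2, ∑ y ∈ Bw S ρ t G w2,
        (g G x - g G y) ^ 2) else 0) =
      (if NP S ρ t G then ∑ w2 ∈ (NN S ρ t G).erase (ww S ρ t G),
      (if Act S ρ t G V0 ∧ |qq S ρ t G w2| ≤ ((RR S ρ t G).card : ℝ) / 4 then c G w2 else 0) *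
        ∑ x ∈ Aw S ρ t G w2, ∑ y ∈ Bw S ρ t G w2, (g G x - g G y) ^ 2 else 0) := by
      intro G
      exact (conv V0 (c G) (fun w2 => ∑ x ∈ Aw S ρ t G w2, ∑ y ∈ Bw S ρ t G w2,
        (g G x - g G y) ^ 2)).symm
    rw [sum_congr rfl fun G _ => e2 G, sum_congr rfl fun G _ => e3 G]
    exact h
  rw [e1, mul_div_assoc]

theorem drift (hb : S_Basic) (hm : S_MeasP) (hs : S_Swap) (h1 : S_SW1) (h2 : S_SW2)
    (hd : S_DY) : S_Drift := by
  intro V0 C hV hC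
  obtain ⟨K1, n1, hK1⟩ := hd V0 C hV hC
  set K : ℝ := (1 + 4 * V0) * (|K1| + 5 + 4 * V0) + 8 with hK
  have hV' : (5 : ℝ) ≤ 1 + 4 * V0 := by linarith
  have hKa : 0 ≤ |K1| := abs_nonneg _
  have k1 : K1 ≤ K := by
    have := le_abs_self K1
    nlinarith
  have k2 : 5 + 4 * V0 ≤ K := by nlinarith
  have k3 : (1 + 4 * V0) * |K1| ≤ K := by nlinarith
  have k4 : (1 + 4 * V0) * (5 + 4 * V0) ≤ K := by nlinarith
  have k5 : 8 ≤ K := by nlinarith
  have k6 : |K1| ≤ K := by nlinarith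
  have hK0 : 0 ≤ K := by linarith
  refine ⟨K, hK0, max n1 1, fun n hn S ρ t hS hρ b γ g hγ hg hgb hsupp => ?_⟩
  have hn1 : n1 ≤ n := le_trans (le_max_left _ _) hn
  have hn0 : 1 ≤ n := le_trans (le_max_right _ _) hn
  have hnR : (1 : ℝ) ≤ n := by exact_mod_cast hn0
  have hn2 : (n : ℝ) ≤ (n : ℝ) ^ 2 := by nlinarith
  have hn4 : (n : ℝ) ^ 2 ≤ (n : ℝ) ^ 4 := pow_le_pow_right₀ hnR (by norm_num)
  have hX : ∀ G : SimpleGraph (Fin n), 0 ≤ (n : ℝ) ^ (-(9 / 16) : ℝ) *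
      (1 + |Xt S ρ t G (ww S ρ t G)| / √(n : ℝ)) := fun G => by positivity
  have huu : 0 ≤ uu b n := uu_nonneg b
  -- the pointwise bound of the difference
  have hdiff : ∀ G : SimpleGraph (Fin n), Act S ρ t G V0 →
      |2 / (rr S ρ t G : ℝ) * ∑ w2 ∈ good2 S ρ t G, Dd S ρ t G (g G) w2 - Yv S ρ t G (g G)| ≤
      (if PRev C G then |K1| * γ * uu b n * ((n : ℝ) ^ (-(9 / 16) : ℝ) *
        (1 + |Xt S ρ t G (ww S ρ t G)| / √(n : ℝ))) else (5 + 4 * V0) * γ * n) := by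
    intro G hact
    split_ifs with hP
    · have h := hK1 n hn1 S ρ t G hS hρ hP hact b γ (g G) hγ (hgb G) (hsupp G)
      refine h.trans ?_
      have h3 : K1 * γ * uu b n * (n : ℝ) ^ (-(9 / 16) : ℝ) *
        (1 + |Xt S ρ t G (ww S ρ t G)| / √(n : ℝ)) = K1 * (γ * uu b n * ((n : ℝ) ^ (-(9 / 16) : ℝ) *
        (1 + |Xt S ρ t G (ww S ρ t G)| / √(n : ℝ)))) := by ring
      have h4 : |K1| * γ * uu b n * ((n : ℝ) ^ (-(9 / 16) : ℝ) *
        (1 + |Xt S ρ t G (ww S ρ t G)| / √(n : ℝ))) = |K1| * (γ * uu b n *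
        ((n : ℝ) ^ (-(9 / 16) : ℝ) * (1 + |Xt S ρ t G (ww S ρ t G)| / √(n : ℝ)))) := by ring
      rw [h3, h4]
      exact mul_le_mul_of_nonneg_right (le_abs_self _)
        (mul_nonneg (mul_nonneg hγ huu) (hX G))
    · exact diff_abs hV hn0 hact hS b hγ (hgb G) (hsupp G)
  refine ⟨part1 hm hρ V0 g hg, ?_, ?_⟩
  · -- the drift
    intro φ hφ
    have hz := drift_zero hm hs h1 hρ V0 g hg (fun G _ => φ G * (2 / (rr S ρ t G : ℝ)))
      (by
        intro G w2 x y h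
        have e1 : φ G = φ (swp G (ww S ρ t G) w2 x y) := hφ _ _ (hs n S ρ t G w2 x y h).1
        show φ (swp G (ww S ρ t G) w2 x y) * (2 / (rr S ρ t (swp G (ww S ρ t G) w2 x y) : ℝ)) =
          φ G * (2 / (rr S ρ t G : ℝ))
        rw [← e1, rr_eq (sw_RR hm hs hρ h)])
    have e1 : Ex (fun G => φ G * (if Act S ρ t G V0 then Yv S ρ t G (g G) else 0)) =
        Ex (fun G => φ G * (if Act S ρ t G V0 then Yv S ρ t G (g G) -
          2 / (rr S ρ t G : ℝ) * ∑ w2 ∈ good2 S ρ t G, Dd S ρ t G (g G) w2 else 0)) := by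
      rw [← sub_eq_zero, ← Ex_sub, ← hz]
      refine Ex_congr fun G => ?_
      split_ifs with hact
      · rw [mul_sum, ← mul_sub, sub_sub_cancel, mul_sum]
        exact sum_congr rfl fun _ _ => by ring
      · ring
    rw [e1]
    refine (abs_Ex_le _).trans (Ex_mono fun G => ?_)
    rw [abs_mul]
    refine mul_le_mul_of_nonneg_left ?_ (abs_nonneg _)
    unfold e1V
    by_cases hact : Act S ρ t G V0
    · rw [if_pos hact, if_pos hact, abs_sub_comm]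
      refine (hdiff G hact).trans ?_
      have hx := hX G
      by_cases hP : PRev C G
      · rw [if_pos hP, if_pos hP, add_zero]
        have h3 : K * γ * uu b n * (n : ℝ) ^ (-(9 / 16) : ℝ) *
          (1 + |Xt S ρ t G (ww S ρ t G)| / √(n : ℝ)) = K * (γ * uu b n *
          ((n : ℝ) ^ (-(9 / 16) : ℝ) * (1 + |Xt S ρ t G (ww S ρ t G)| / √(n : ℝ)))) := by ring
        have h4 : |K1| * γ * uu b n * ((n : ℝ) ^ (-(9 / 16) : ℝ) *
          (1 + |Xt S ρ t G (ww S ρ t G)| / √(n : ℝ))) = |K1| * (γ * uu b n *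
          ((n : ℝ) ^ (-(9 / 16) : ℝ) * (1 + |Xt S ρ t G (ww S ρ t G)| / √(n : ℝ)))) := by ring
        rw [h3, h4]
        exact mul_le_mul_of_nonneg_right k6 (mul_nonneg (mul_nonneg hγ huu) hx)
      · rw [if_neg hP, if_neg hP]
        have h5 : (5 + 4 * V0) * γ * n ≤ K * γ * (n : ℝ) ^ 2 := by
          have : (5 + 4 * V0) * γ ≤ K * γ := mul_le_mul_of_nonneg_right k2 hγ
          exact mul_le_mul this hn2 (by linarith) (by positivity)
        have h6 : 0 ≤ K * γ * uu b n * (n : ℝ) ^ (-(9 / 16) : ℝ) *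
          (1 + |Xt S ρ t G (ww S ρ t G)| / √(n : ℝ)) := by
          have := mul_nonneg (mul_nonneg (mul_nonneg hK0 hγ) huu) hx
          linarith [this, show K * γ * uu b n * ((n : ℝ) ^ (-(9 / 16) : ℝ) *
            (1 + |Xt S ρ t G (ww S ρ t G)| / √(n : ℝ))) = K * γ * uu b n *
            (n : ℝ) ^ (-(9 / 16) : ℝ) * (1 + |Xt S ρ t G (ww S ρ t G)| / √(n : ℝ)) by ring]
        linarith
    · rw [if_neg hact, if_neg hact, abs_zero]
      split_ifs
      · simp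
      · positivity
  · -- the second moment
    have hz := drift_zero hm hs h1 hρ V0 g hg
      (fun G w2 => 2 / (rr S ρ t G : ℝ) * Cv S ρ t G (g G) w2)
      (by
        intro G w2 x y h
        show 2 / (rr S ρ t (swp G (ww S ρ t G) w2 x y) : ℝ) *
          Cv S ρ t (swp G (ww S ρ t G) w2 x y) (g (swp G (ww S ρ t G) w2 x y)) w2 = _
        rw [rr_eq (sw_RR hm hs hρ h), sw_Cv hm hs hρ hg h])
    have hz2 := second_id hm hs h2 hρ V0 g hg
      (fun G w2 => 2 / (rr S ρ t G : ℝ) / Dl S ρ t G w2)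
      (by
        intro G w2 x y h
        show 2 / (rr S ρ t (swp G (ww S ρ t G) w2 x y) : ℝ) /
          Dl S ρ t (swp G (ww S ρ t G) w2 x y) w2 = _
        rw [rr_eq (sw_RR hm hs hρ h), sw_Dl hm hs hρ h])
    have e0 : ∀ G : SimpleGraph (Fin n), (if Act S ρ t G V0 then Yv S ρ t G (g G) else 0) ^ 2 =
        (if Act S ρ t G V0 then ∑ w2 ∈ good2 S ρ t G,
          (2 / (rr S ρ t G : ℝ) * Cv S ρ t G (g G) w2) * Dd S ρ t G (g G) w2 else 0) +
        ((if Act S ρ t G V0 then ∑ w2 ∈ good2 S ρ t G, 2 / (rr S ρ t G : ℝ) / Dl S ρ t G w2 *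
          (Dl S ρ t G w2 * Dd S ρ t G (g G) w2 ^ 2) else 0) +
        (if Act S ρ t G V0 then Yv S ρ t G (g G) * (Yv S ρ t G (g G) -
          2 / (rr S ρ t G : ℝ) * ∑ w2 ∈ good2 S ρ t G, Dd S ρ t G (g G) w2) else 0)) := by
      intro G
      split_ifs with hact
      · have e2 : ∀ w2 ∈ good2 S ρ t G, 2 / (rr S ρ t G : ℝ) / Dl S ρ t G w2 *
          (Dl S ρ t G w2 * Dd S ρ t G (g G) w2 ^ 2) =
          2 / (rr S ρ t G : ℝ) * Dd S ρ t G (g G) w2 ^ 2 := by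
          intro w2 _
          by_cases hD : Dl S ρ t G w2 = 0
          · have hcard : Aw S ρ t G w2 ∪ Bw S ρ t G w2 = ∅ := by
              rw [Dl_eq] at hD
              exact card_eq_zero.1 (by exact_mod_cast hD)
            have hDd : Dd S ρ t G (g G) w2 = 0 := by
              unfold Dd; rw [hcard, sum_empty]
            rw [hDd]; ring
          · field_simp
        rw [sum_congr rfl e2, ← add_assoc, ← sum_add_distrib]
        have e3 : ∀ w2 ∈ good2 S ρ t G, 2 / (rr S ρ t G : ℝ) * Cv S ρ t G (g G) w2 *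
            Dd S ρ t G (g G) w2 + 2 / (rr S ρ t G : ℝ) * Dd S ρ t G (g G) w2 ^ 2 =
            Yv S ρ t G (g G) * (2 / (rr S ρ t G : ℝ)) * Dd S ρ t G (g G) w2 := by
          intro w2 _
          rw [Yv_split (g G) w2]; ring
        rw [sum_congr rfl e3, ← mul_sum]
        ring
      · ring
    rw [Ex_congr e0, Ex_add, Ex_add, hz, hz2, zero_add, ← Ex_mul_left, ← Ex_add]
    refine Ex_mono fun G => ?_
    unfold e2V
    by_cases hact : Act S ρ t G V0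
    · rw [if_pos hact, if_pos hact, if_pos hact]
      have hr0 : (0 : ℝ) < rr S ρ t G := by
        have hV0 : 0 < V0 := by linarith
        exact lt_of_lt_of_le (by positivity) hact.2
      have hx := hX G
      have f1 : ∑ w2 ∈ good2 S ρ t G, 2 / (rr S ρ t G : ℝ) / Dl S ρ t G w2 *
          ∑ x ∈ Aw S ρ t G w2, ∑ y ∈ Bw S ρ t G w2, (g G x - g G y) ^ 2 ≤
          4 * (γ ^ 2 * uu b n) := by
        have f2 : ∀ w2 ∈ good2 S ρ t G, 2 / (rr S ρ t G : ℝ) / Dl S ρ t G w2 *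
          ∑ x ∈ Aw S ρ t G w2, ∑ y ∈ Bw S ρ t G w2, (g G x - g G y) ^ 2 ≤
            4 * (γ ^ 2 * uu b n) / rr S ρ t G := by
          intro w2 _
          have hD0 : 0 ≤ Dl S ρ t G w2 := by rw [Dl_eq]; positivity
          have hps := pair_sum (ρ := ρ) (t := t) (G := G) w2 hS b hγ (hgb G) (hsupp G)
          rcases hD0.eq_or_lt with hD | hD
          · rw [← hD, div_zero, zero_mul]
            positivity
          · calc _ ≤ 2 / (rr S ρ t G : ℝ) / Dl S ρ t G w2 *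
                (2 * Dl S ρ t G w2 * (γ ^ 2 * uu b n)) :=
                  mul_le_mul_of_nonneg_left hps (by positivity)
              _ = _ := by field_simp; ring
        refine (sum_le_sum f2).trans ?_
        rw [sum_const, nsmul_eq_mul]
        calc ((good2 S ρ t G).card : ℝ) * (4 * (γ ^ 2 * uu b n) / rr S ρ t G) ≤
            (rr S ρ t G : ℝ) * (4 * (γ ^ 2 * uu b n) / rr S ρ t G) :=
              mul_le_mul_of_nonneg_right good2_card (by positivity)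
          _ = _ := by field_simp
      have hYa := Yv_abs hV hn0 hact hS b hγ (hgb G) (hsupp G)
      have hDa := hdiff G hact
      have f3 : Yv S ρ t G (g G) * (Yv S ρ t G (g G) -
          2 / (rr S ρ t G : ℝ) * ∑ w2 ∈ good2 S ρ t G, Dd S ρ t G (g G) w2) ≤
          (1 + 4 * V0) * (γ * uu b n) * (if PRev C G then |K1| * γ * uu b n *
            ((n : ℝ) ^ (-(9 / 16) : ℝ) * (1 + |Xt S ρ t G (ww S ρ t G)| / √(n : ℝ)))
            else (5 + 4 * V0) * γ * n) := by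
        refine (le_abs_self _).trans ?_
        rw [abs_mul, abs_sub_comm (Yv S ρ t G (g G))]
        exact mul_le_mul hYa hDa (abs_nonneg _) (by positivity)
      have f4 : 8 * (γ ^ 2 * uu b n) ≤ K * γ ^ 2 * uu b n := by
        have := mul_le_mul_of_nonneg_right k5 (by positivity : 0 ≤ γ ^ 2 * uu b n)
        linarith
      have hmain : 0 ≤ K * γ ^ 2 * uu b n ^ 2 * (n : ℝ) ^ (-(9 / 16) : ℝ) *
          (1 + |Xt S ρ t G (ww S ρ t G)| / √(n : ℝ)) := by positivity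
      by_cases hP : PRev C G
      · rw [if_pos hP] at f3
        rw [if_pos hP, add_zero]
        have f5 : (1 + 4 * V0) * (γ * uu b n) * (|K1| * γ * uu b n *
            ((n : ℝ) ^ (-(9 / 16) : ℝ) * (1 + |Xt S ρ t G (ww S ρ t G)| / √(n : ℝ)))) ≤
            K * γ ^ 2 * uu b n ^ 2 * (n : ℝ) ^ (-(9 / 16) : ℝ) *
            (1 + |Xt S ρ t G (ww S ρ t G)| / √(n : ℝ)) := by
          have := mul_le_mul_of_nonneg_right k3
            (mul_nonneg (by positivity : 0 ≤ γ ^ 2 * uu b n ^ 2) hx)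
          calc _ = (1 + 4 * V0) * |K1| * (γ ^ 2 * uu b n ^ 2 * ((n : ℝ) ^ (-(9 / 16) : ℝ) *
              (1 + |Xt S ρ t G (ww S ρ t G)| / √(n : ℝ)))) := by ring
            _ ≤ _ := this
            _ = _ := by ring
        linarith
      · rw [if_neg hP] at f3
        rw [if_neg hP]
        have f5 : (1 + 4 * V0) * (γ * uu b n) * ((5 + 4 * V0) * γ * n) ≤
            K * γ ^ 2 * (n : ℝ) ^ 4 := by
          have g1 : uu b n * n ≤ (n : ℝ) ^ 4 := by
            have := uu_le b hn0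
            nlinarith
          calc _ = (1 + 4 * V0) * (5 + 4 * V0) * (γ ^ 2 * (uu b n * n)) := by ring
            _ ≤ K * (γ ^ 2 * (uu b n * n)) := mul_le_mul_of_nonneg_right k4 (by positivity)
            _ ≤ K * (γ ^ 2 * (n : ℝ) ^ 4) :=
                mul_le_mul_of_nonneg_left (mul_le_mul_of_nonneg_left g1 (sq_nonneg _)) hK0
            _ = _ := by ring
        linarith
    · rw [if_neg hact, if_neg hact, if_neg hact]
      split_ifs
      · simp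
      · have : 0 ≤ K * γ ^ 2 * (n : ℝ) ^ 4 := by positivity
        linarith

end

end Pool.Agent.W597.PK
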